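import Mathlib

namespace Pool.Agent.Results.MP_c9edc3_al.Counter

/-- The symmetric inverse monoid of all partial bijections of `S`. -/
def SymInv (S : Type) : Type := S ≃. S

/-- The product `α * β` is the composite of partial maps, `α` first and then `β`. -/
instance (S : Type) : Monoid (SymInv S) where
  mul a b := PEquiv.trans a b
  one := PEquiv.refl S
  mul_assoc := PEquiv.trans_assoc
  one_mul := PEquiv.refl_trans
  mul_one := PEquiv.trans_refl

/-- The domain `D_{g,h}`. -/
def D {S : Type} [Monoid S] (g h : S) : Set S := {a | g * h * a = a ∧ a * (g * h) = a}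

open Classical in
/-- The partial bijection `φ_{g,h} : D_{g,h} → D_{h,g}`, `a ↦ h a g`. -/
noncomputable def phi {S : Type} [Monoid S] (g h : S) : SymInv S where
  toFun a := if a ∈ D g h then some (h * a * g) else none
  invFun b := if b ∈ D h g then some (g * b * h) else none
  inv a b := by
    have key : ∀ g h a : S, a ∈ D g h → h * a * g ∈ D h g ∧ g * (h * a * g) * h = a := by
      rintro g h a ⟨h1, h2⟩
      refine ⟨⟨?_, ?_⟩, ?_⟩
      · calc h * g * (h * a * g) = h * (g * h * a) * g := by simp only [mul_assoc]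
          _ = h * a * g := by rw [h1]
      · calc h * a * g * (h * g) = h * (a * (g * h)) * g := by simp only [mul_assoc]
          _ = h * a * g := by rw [h2]
      · calc g * (h * a * g) * h = (g * h * a) * (g * h) := by simp only [mul_assoc]
          _ = a := by rw [h1, h2]
    constructor
    · intro hb
      by_cases hbD : b ∈ D h g
      · rw [if_pos hbD] at hb
        have hab : g * b * h = a := Option.some.inj hb
        obtain ⟨k1, k2⟩ := key h g b hbD
        rw [hab] at k1 k2
        rw [if_pos k1, k2]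
      · rw [if_neg hbD] at hb
        cases hb
    · intro ha
      by_cases haD : a ∈ D g h
      · rw [if_pos haD] at ha
        have hab : h * a * g = b := Option.some.inj ha
        obtain ⟨k1, k2⟩ := key g h a haD
        rw [hab] at k1 k2
        rw [if_pos k1, k2]
      · rw [if_neg haD] at ha
        cases ha

/-- The partial inner automorphism monoid of a monoid `S` (for which `S¹ = S`). -/
def Inn (S : Type) [Monoid S] : Submonoid (SymInv S) :=
  Submonoid.closure {x | ∃ g h : S, x = phi g h}

/-- Residual finiteness of a semigroup. -/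
def RF (M : Type) [Mul M] : Prop :=
  ∀ x y : M, x ≠ y →
    ∃ (F : Type) (_ : Semigroup F) (_ : Finite F) (f : M →ₙ* F), f x ≠ f y

/-- The maps `x ↦ e x + c` with `e ∈ {0, 1, -1}`. -/
@[ext] structure Aff (R : Type) where
  e : SignType
  c : R

instance (R : Type) [CommRing R] : Monoid (Aff R) where
  mul a b := ⟨a.e * b.e, (a.e : R) * b.c + a.c⟩
  one := ⟨1, 0⟩
  mul_assoc a b c := by
    apply Aff.ext
    · exact mul_assoc a.e b.e c.e
    · change ((a.e * b.e : SignType) : R) * c.c + ((a.e : R) * b.c + a.c) =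
        (a.e : R) * ((b.e : R) * c.c + b.c) + a.c
      push_cast
      ring
  one_mul a := by
    apply Aff.ext
    · exact one_mul a.e
    · change ((1 : SignType) : R) * a.c + 0 = a.c
      simp
  mul_one a := by
    apply Aff.ext
    · exact mul_one a.e
    · change (a.e : R) * 0 + a.c = a.c
      simp

theorem mul_e {R : Type} [CommRing R] (a b : Aff R) : (a * b).e = a.e * b.e := rfl
theorem mul_c {R : Type} [CommRing R] (a b : Aff R) : (a * b).c = (a.e : R) * b.c + a.c := rfl
theorem one_e {R : Type} [CommRing R] : (1 : Aff R).e = 1 := rfl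
theorem one_c {R : Type} [CommRing R] : (1 : Aff R).c = 0 := rfl

instance (n : ℕ) [NeZero n] : Finite (Aff (ZMod n)) :=
  Finite.of_injective (fun a : Aff (ZMod n) => (a.e, a.c)) (by
    intro a b h
    exact Aff.ext (congrArg Prod.fst h) (congrArg Prod.snd h))

def red (n : ℕ) : Aff ℤ →ₙ* Aff (ZMod n) where
  toFun a := ⟨a.e, (a.c : ZMod n)⟩
  map_mul' a b := by
    apply Aff.ext
    · rfl
    · change (((a.e : ℤ) * b.c + a.c : ℤ) : ZMod n) = (a.e : ZMod n) * (b.c : ZMod n) + a.c
      push_cast
      cases a.e <;> simp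

theorem rf : RF (Aff ℤ) := by
  intro x y hxy
  refine ⟨Aff (ZMod ((x.c - y.c).natAbs + 1)), inferInstance, inferInstance, red _, ?_⟩
  intro h
  apply hxy
  have h1 : x.e = y.e := by
    have := congrArg Aff.e h
    exact this
  have h2 : (x.c : ZMod ((x.c - y.c).natAbs + 1)) = y.c := congrArg Aff.c h
  rw [ZMod.intCast_eq_intCast_iff_dvd_sub] at h2
  have h3 : y.c - x.c = 0 := by
    apply Int.eq_zero_of_dvd_of_natAbs_lt_natAbs h2
    omega
  exact Aff.ext h1 (by omega)

def sh (m : ℤ) : Aff ℤ := ⟨1, m⟩
def rf' (m : ℤ) : Aff ℤ := ⟨-1, m⟩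
def cst (m : ℤ) : Aff ℤ := ⟨0, m⟩

open Classical in
theorem fg : Subsemigroup.closure (({sh 1, sh (-1), rf' 0, cst 0} : Finset (Aff ℤ)) :
    Set (Aff ℤ)) = ⊤ := by
  set H := Subsemigroup.closure (({sh 1, sh (-1), rf' 0, cst 0} : Finset (Aff ℤ)) : Set (Aff ℤ))
  have a1 : sh 1 ∈ H := Subsemigroup.subset_closure (by simp)
  have a2 : sh (-1) ∈ H := Subsemigroup.subset_closure (by simp)
  have a3 : rf' 0 ∈ H := Subsemigroup.subset_closure (by simp)
  have a4 : cst 0 ∈ H := Subsemigroup.subset_closure (by simp)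
  have hadd : ∀ m n : ℤ, sh m * sh n = sh (n + m) := by
    intro m n
    apply Aff.ext
    · simp [mul_e, sh]
    · simp [mul_c, sh]
  have hsh : ∀ m : ℤ, sh m ∈ H := by
    intro m
    induction m using Int.induction_on with
    | zero => have := H.mul_mem a1 a2; rwa [hadd] at this
    | succ n ih => have := H.mul_mem a1 ih; rwa [hadd] at this
    | pred n ih =>
      have := H.mul_mem a2 ih
      rw [hadd] at this
      rwa [sub_eq_add_neg]
  rw [eq_top_iff]
  rintro ⟨e, c⟩ -
  cases e with
  | zero =>
    have := H.mul_mem (hsh c) a4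
    convert this using 1
    apply Aff.ext
    · simp [mul_e, sh, cst]
    · simp [mul_c, sh, cst]
  | neg =>
    have := H.mul_mem (hsh c) a3
    convert this using 1
    apply Aff.ext
    · simp [mul_e, sh, rf']
    · simp [mul_c, sh, rf']
  | pos => exact hsh c

def ap {S : Type} (x : SymInv S) (a : S) : Option S := PEquiv.toFun x a

theorem ap_mul {S : Type} (x y : SymInv S) (a : S) : ap (x * y) a = (ap x a).bind (ap y) := rfl

theorem sext {S : Type} {x y : SymInv S} (h : ∀ a, ap x a = ap y a) : x = y := PEquiv.ext h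

noncomputable def X (m : ℤ) : SymInv (Aff ℤ) := phi (sh (-m)) (sh m)
noncomputable def E (m : ℤ) : SymInv (Aff ℤ) := phi 1 (rf' (2 * m))

theorem ap_X (m : ℤ) (a : Aff ℤ) : ap (X m) a = some ⟨a.e, a.c + m - a.e * m⟩ := by
  have hD : a ∈ D (sh (-m)) (sh m) := by
    have : sh (-m) * sh m = 1 := by
      apply Aff.ext
      · simp [mul_e, sh, one_e]
      · simp [mul_c, sh, one_c]
    simp [D, this]
  unfold ap X phi
  simp only [if_pos hD]
  congr 1
  apply Aff.ext
  · simp [mul_e, sh]
  · simp [mul_c, mul_e, sh]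
    ring

open Classical in
theorem ap_E (m : ℤ) (a : Aff ℤ) : ap (E m) a = if a = cst m then some a else none := by
  unfold ap E phi
  by_cases h : a = cst m
  · have hD : a ∈ D 1 (rf' (2 * m)) := by
      subst h
      constructor
      · apply Aff.ext
        · simp [mul_e, cst]
        · simp [mul_c, cst, rf']
          ring
      · apply Aff.ext
        · simp [mul_e, cst]
        · simp [mul_c, cst, rf']
    simp only [if_pos hD, if_pos h]
    have := hD.1
    rw [one_mul] at this
    rw [mul_one, this]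
  · have hD : a ∉ D 1 (rf' (2 * m)) := by
      rintro ⟨h1, -⟩
      apply h
      rw [one_mul] at h1
      have e1 := congrArg Aff.e h1
      have e2 := congrArg Aff.c h1
      rw [mul_e] at e1
      rw [mul_c] at e2
      simp only [rf'] at e1 e2
      apply Aff.ext
      · change a.e = 0
        revert e1
        cases a.e <;> decide
      · change a.c = m
        simp at e2
        omega
    simp only [if_neg hD, if_neg h]

theorem EE (m : ℤ) : E m * E m = E m := by
  apply sext
  intro a
  rw [ap_mul, ap_E]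
  split_ifs with h
  · simp [ap_E, h]
  · rfl

theorem ap_EE {m n : ℤ} (h : m ≠ n) (a : Aff ℤ) : ap (E m * E n) a = none := by
  rw [ap_mul, ap_E]
  split_ifs with h1
  · have : a ≠ cst n := by
      rw [h1]
      intro h2
      exact h (congrArg Aff.c h2)
    simp [ap_E, this]
  · rfl

theorem conjE (m : ℤ) : X m * E m * X (-m) = E 0 := by
  apply sext
  intro a
  rw [ap_mul, ap_mul, ap_X, ap_E]
  simp only [Option.bind_some, ap_E]
  by_cases h : a = cst 0
  · subst h
    have : (⟨(cst 0).e, (cst 0).c + m - (cst 0).e * m⟩ : Aff ℤ) = cst m := by simp [cst]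
    rw [if_pos this, if_pos rfl]
    simp [ap_X, cst]
  · have : (⟨a.e, a.c + m - a.e * m⟩ : Aff ℤ) ≠ cst m := by
      intro h2
      apply h
      have e1 : a.e = 0 := congrArg Aff.e h2
      have e2 : a.c + m - a.e * m = m := congrArg Aff.c h2
      rw [e1] at e2
      apply Aff.ext e1
      change a.c = 0
      simp at e2
      exact e2
    rw [if_neg this, if_neg h]
    rfl

theorem not_rf : ¬ RF (Inn (Aff ℤ)) := by
  intro h
  have hX : ∀ m, X m ∈ Inn (Aff ℤ) := fun m => Submonoid.subset_closure ⟨_, _, rfl⟩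
  have hE : ∀ m, E m ∈ Inn (Aff ℤ) := fun m => Submonoid.subset_closure ⟨_, _, rfl⟩
  let x : ℤ → Inn (Aff ℤ) := fun m => ⟨X m, hX m⟩
  let e : ℤ → Inn (Aff ℤ) := fun m => ⟨E m, hE m⟩
  have hne : e 0 ≠ e 0 * e 1 := by
    intro h1
    have h2 : E 0 = E 0 * E 1 := congrArg Subtype.val h1
    have h3 := ap_EE (m := 0) (n := 1) (by norm_num) (cst 0)
    rw [← h2, ap_E, if_pos rfl] at h3
    cases h3
  obtain ⟨F, _, _, f, hf⟩ := h _ _ hne
  apply hf
  obtain ⟨m, n, hmn, hfe⟩ := Finite.exists_ne_map_eq_of_infinite (fun m : ℤ => f (e m))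
  have h1 : e m * e m = e m := Subtype.ext (EE m)
  have h2 : x m * e m * x (-m) = e 0 := Subtype.ext (conjE m)
  have h3 : x m * (e m * e n) * x (-m) = e 0 * e 1 := by
    apply Subtype.ext
    change X m * (E m * E n) * X (-m) = E 0 * E 1
    apply sext
    intro a
    rw [ap_EE (m := 0) (n := 1) (by norm_num), ap_mul, ap_mul, ap_X]
    simp only [Option.bind_some, ap_EE hmn]
    rfl
  have hfe' : f (e m) = f (e n) := hfe
  have h4 : f (e m * e n) = f (e m) := by rw [map_mul, ← hfe', ← map_mul, h1]
  rw [← h3, map_mul f _ (x (-m)), map_mul f (x m), h4, ← map_mul, ← map_mul, h2]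

theorem result : ∃ (S : Type) (_ : Monoid S),
    (∃ T : Finset S, Subsemigroup.closure (T : Set S) = ⊤) ∧ RF S ∧ ¬ RF (Inn S) := by
  classical
  exact ⟨Aff ℤ, inferInstance, ⟨_, fg⟩, rf, not_rf⟩

end Pool.Agent.Results.MP_c9edc3_al.Counter
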